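import Pool.Agent.helper37.NE.SpecB
import Pool.Agent.helper59.FI.Base

/-!
# MP_baa4d7_al, THEOREM NE, row YHC: the sets `FF` have at most `p - 1` elements
-/

set_option autoImplicit false

namespace Pool.Agent.NE

open Pool.Agent.helper58.DC Pool.Agent.DI Pool.Agent.GR Pool.Agent.OB Pool.Agent.DR Pool.Agent.FI Pool.Agent.FI3 Pool.Agent.FI4 Pool.Agent.FI4I Pool.Agent.LE Pool.Agent.L5 Pool.Agent.NAB Pool.Agent.ND

section

variable {G : Type} [Group G]

/-- `a` acts on `Z` as the `n`-th power. -/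
def YHC_P (Z : Subgroup G) (a : G) (n : ℤ) : Prop := ∀ y ∈ Z, a * y * a⁻¹ = y ^ n

theorem YHC_nz (Z : Subgroup G) (a y : G) (ha : a ∈ nz Z) (hy : y ∈ Z) : a * y * a⁻¹ ∈ Z :=
  (Subgroup.mem_normalizer_iff.1 ha y).1 hy

theorem YHC_ex (Z : Subgroup G) (c : G) (hZ : Z = Subgroup.zpowers c) (a : G) (ha : a ∈ nz Z) : ∃ n : ℤ, YHC_P Z a n := by
  have hc : c ∈ Z := by rw [hZ]; exact Subgroup.mem_zpowers c
  have h1 := YHC_nz Z a c ha hc
  rw [hZ] at h1
  obtain ⟨n, hn⟩ := Subgroup.mem_zpowers_iff.1 h1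
  refine ⟨n, fun y hy => ?_⟩
  rw [hZ] at hy
  obtain ⟨i, rfl⟩ := Subgroup.mem_zpowers_iff.1 hy
  rw [← conj_zpow, ← hn, ← zpow_mul, ← zpow_mul, mul_comm]

theorem YHC_one (Z : Subgroup G) : YHC_P Z (1 : G) 1 := by
  intro y _
  rw [zpow_one, one_mul, inv_one, mul_one]

theorem YHC_cz (Z : Subgroup G) (a : G) : a ∈ cz Z ↔ YHC_P Z a 1 := by
  constructor
  · intro h y hy
    have h1 := Subgroup.mem_centralizer_iff.1 h y hy
    rw [zpow_one, ← h1, mul_inv_cancel_right]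
  · intro h
    refine Subgroup.mem_centralizer_iff.2 fun y hy => ?_
    have h1 := h y hy
    rw [zpow_one] at h1
    have h2 : a * y = y * a := mul_inv_eq_iff_eq_mul.1 h1
    exact h2.symm

theorem YHC_mul (Z : Subgroup G) (a b : G) (n k : ℤ) (ha : YHC_P Z a n) (hb : YHC_P Z b k) : YHC_P Z (a * b) (n * k) := by
  intro y hy
  have h1 : a * b * y * (a * b)⁻¹ = a * (b * y * b⁻¹) * a⁻¹ := by group
  rw [h1, hb y hy, ha _ (Z.zpow_mem hy k), ← zpow_mul, mul_comm]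

theorem YHC_pow (Z : Subgroup G) (a : G) (n : ℤ) (ha : YHC_P Z a n) (j : ℕ) : YHC_P Z (a ^ j) (n ^ j) := by
  induction j with
  | zero => rw [pow_zero, pow_zero]; exact YHC_one Z
  | succ j ih =>
    rw [pow_succ, pow_succ]
    exact YHC_mul Z _ _ _ _ ih ha

/-- exponents are determined modulo the order of the generator -/
theorem YHC_uniq (Z : Subgroup G) (c : G) (hc : c ∈ Z) (a : G) (n k : ℤ) (ha : YHC_P Z a n) (hb : YHC_P Z a k) : (orderOf c : ℤ) ∣ n - k := by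
  have h1 : c ^ n = c ^ k := by rw [← ha c hc, ← hb c hc]
  have h2 : c ^ (n - k) = 1 := by rw [zpow_sub, h1, mul_inv_cancel]
  exact orderOf_dvd_iff_zpow_eq_one.2 h2

/-- if `n = 1` modulo `p` then a power of `a` centralises `Z` -/
theorem YHC_near (Z : Subgroup G) (p κ : ℕ) (hZ : ∀ y ∈ Z, y ^ p ^ (κ + 1) = 1) (a : G) (n : ℤ) (ha : YHC_P Z a n) (hn : (p : ℤ) ∣ n - 1) :
    a ^ p ^ κ ∈ cz Z := by
  rw [YHC_cz]
  intro y hy
  rw [YHC_pow Z a n ha (p ^ κ) y hy, zpow_one]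
  have h1 : ((p : ℤ) ^ (κ + 1)) ∣ n ^ p ^ κ - 1 ^ p ^ κ := dvd_sub_pow_of_dvd_sub hn κ
  rw [one_pow] at h1
  obtain ⟨l, hl⟩ := h1
  have h2 : n ^ p ^ κ = ((p ^ (κ + 1) : ℕ) : ℤ) * l + 1 := by
    push_cast
    linarith
  rw [h2, zpow_add, zpow_one, zpow_mul, zpow_natCast, hZ y hy, one_zpow, one_mul]

end

theorem YHC (hZGP : ZGP_stmt) : YHC_stmt := by
  intro p e m t M hS G _ _ N χ Z z x hZN hST L hL θ₀ hθ
  have hp : p.Prime := hS.pr
  have : Fact p.Prime := ⟨hp⟩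
  have hem : m + 3 ≤ e := by have := hZN.em; omega
  obtain ⟨-, -, ⟨g3, -⟩, -, ⟨-, g5b, -, -, -⟩, -, -, -⟩ := hZGP p e m hp hem G z hZN.uc.pe hZN.uc.od
  have hZz := hZN.zz
  rw [hZz] at g3 g5b
  set c : G := z ^ p ^ (e - (m + 3)) with hc
  have hZc : Z = Subgroup.zpowers c := hZz.symm
  have hcZ : c ∈ Z := by rw [hZc]; exact Subgroup.mem_zpowers c
  have hoc : orderOf c = p ^ (m + 2 + 1) := by
    have h1 := Nat.card_zpowers c
    rw [← hZc, g3] at h1
    exact h1.symm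
  have hpw : ∀ y ∈ Z, y ^ p ^ (m + 2 + 1) = 1 := by
    intro y hy
    rw [hZc] at hy
    obtain ⟨i, rfl⟩ := Subgroup.mem_zpowers_iff.1 hy
    rw [← zpow_natCast, ← zpow_mul, mul_comm, zpow_mul, zpow_natCast, ← hoc, pow_orderOf_eq_one, one_zpow]
  -- the stabiliser
  let S : Subgroup G :=
    { carrier := {h | h ∈ N ⊓ nz Z ∧ cjF h θ₀ = θ₀}
      one_mem' := by
        refine ⟨(N ⊓ nz Z).one_mem, ?_⟩
        funext g
        rw [cjF_apply, inv_one, one_mul, mul_one]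
      mul_mem' := by
        intro g h hg hh
        refine ⟨(N ⊓ nz Z).mul_mem hg.1 hh.1, ?_⟩
        have hg2 := hg.2
        have hh2 := hh.2
        funext y
        rw [cjF_apply]
        have h1 : (g * h)⁻¹ * y * (g * h) = h⁻¹ * (g⁻¹ * y * g) * h := by group
        rw [h1, ← cjF_apply h θ₀, hh2, ← cjF_apply g θ₀, hg2]
      inv_mem' := by
        intro g hg
        refine ⟨(N ⊓ nz Z).inv_mem hg.1, ?_⟩
        have hg2 := hg.2
        funext y
        rw [cjF_apply, inv_inv]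
        have h1 := congrFun hg2 (g * y * g⁻¹)
        rw [cjF_apply] at h1
        have h2 : g⁻¹ * (g * y * g⁻¹) * g = y := by group
        rw [h2] at h1
        exact h1.symm }
  have hSm : ∀ h, h ∈ S ↔ h ∈ N ⊓ nz Z ∧ cjF h θ₀ = θ₀ := fun h => Iff.rfl
  have hCS : N ⊓ cz Z ≤ S := by
    intro h hh
    refine ⟨⟨hh.1, g5b hh.2⟩, ?_⟩
    exact funMap_inner hθ.1 hh
  have hex : ∀ a ∈ S, ∃ n : ℤ, YHC_P Z a n := fun a ha => YHC_ex Z c hZc a ha.1.2
  have hkey : ∀ a ∈ S, ∀ n : ℤ, YHC_P Z a n → (p : ℤ) ∣ n - 1 → a ∈ N ⊓ cz Z := by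
    intro a ha n hn hpn
    have h1 := YHC_near Z p (m + 2) hpw a n hn hpn
    have h2 : SB M (N ⊓ cz Z) (cjF a θ₀) θ₀ := by
      rw [ha.2]
      exact SB.refl _ _
    exact ⟨ha.1.1, hST.fx θ₀ hθ a ha.1 h2 (m + 2) h1⟩
  have hkey' : ∀ a ∈ cz Z, ∀ n : ℤ, YHC_P Z a n → (p : ℤ) ∣ n - 1 := by
    intro a ha n hn
    have h1 := YHC_uniq Z c hcZ a n 1 hn ((YHC_cz Z a).1 ha)
    rw [hoc] at h1
    refine dvd_trans ?_ h1
    exact_mod_cast dvd_pow_self p (by omega : m + 2 + 1 ≠ 0)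
  choose! E hE using hex
  have hEeq : ∀ a ∈ S, ∀ n : ℤ, YHC_P Z a n → ((E a : ℤ) : ZMod p) = (n : ZMod p) := by
    intro a ha n hn
    have h1 := YHC_uniq Z c hcZ a (E a) n (hE a ha) hn
    rw [hoc] at h1
    have h2 : (p : ℤ) ∣ E a - n := dvd_trans (by exact_mod_cast dvd_pow_self p (by omega : m + 2 + 1 ≠ 0)) h1
    have h3 := (ZMod.intCast_zmod_eq_zero_iff_dvd (E a - n) p).2 h2
    rw [Int.cast_sub, sub_eq_zero] at h3
    exact h3
  let f : S →* ZMod p :=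
    { toFun := fun a => ((E (a : G) : ℤ) : ZMod p)
      map_one' := by
        have h1 := hEeq 1 S.one_mem 1 (YHC_one Z)
        simp only [Subgroup.coe_one]
        rw [h1, Int.cast_one]
      map_mul' := by
        intro a b
        have h1 := hEeq ((a : G) * (b : G)) (S.mul_mem a.2 b.2) (E a * E b) (YHC_mul Z a b _ _ (hE a a.2) (hE b b.2))
        simp only [Subgroup.coe_mul]
        rw [h1, Int.cast_mul] }
  let φ : S →* (ZMod p)ˣ := f.toHomUnits
  have hφ : ∀ a : S, ((φ a : (ZMod p)ˣ) : ZMod p) = ((E (a : G) : ℤ) : ZMod p) := fun a => MonoidHom.coe_toHomUnits f a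
  have hker : ∀ a : S, φ a = 1 ↔ (a : G) ∈ N ⊓ cz Z := by
    intro a
    rw [← Units.val_inj, hφ, Units.val_one]
    constructor
    · intro h
      refine hkey a a.2 (E a) (hE a a.2) ?_
      have h2 : (((E (a : G) : ℤ) - 1 : ℤ) : ZMod p) = 0 := by
        rw [Int.cast_sub, h, Int.cast_one, sub_self]
      exact (ZMod.intCast_zmod_eq_zero_iff_dvd _ p).1 h2
    · intro h
      have h2 := (ZMod.intCast_zmod_eq_zero_iff_dvd (E (a : G) - 1) p).2 (hkey' a h.2 (E a) (hE a a.2))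
      rw [Int.cast_sub, Int.cast_one, sub_eq_zero] at h2
      exact h2
  have hkers : φ.ker = (N ⊓ cz Z).subgroupOf S := by
    ext a
    rw [MonoidHom.mem_ker, hker, Subgroup.mem_subgroupOf]
  have h1 : Nat.card φ.ker * φ.ker.index = Nat.card S := Subgroup.card_mul_index φ.ker
  have h2 : φ.ker.index = Nat.card φ.range := Subgroup.index_ker φ
  have h3 : Nat.card φ.range ≤ p - 1 := by
    have h4 : Nat.card φ.range ≤ Nat.card (ZMod p)ˣ := Nat.card_le_card_of_injective _ Subtype.val_injective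
    rw [Nat.card_eq_fintype_card (α := (ZMod p)ˣ), ZMod.card_units p] at h4
    exact h4
  have h5 : Nat.card φ.ker = Nat.card (N ⊓ cz Z : Subgroup G) := by
    rw [hkers]
    exact Nat.card_congr (Subgroup.subgroupOfEquivOfLe hCS).toEquiv
  have h6 : Nat.card S = Nat.card {h : G // h ∈ N ⊓ nz Z ∧ cjF h θ₀ = θ₀} :=
    Nat.card_congr (Equiv.subtypeEquivRight hSm)
  have h7 := hST.ct L hL θ₀ hθ
  rw [← h6, ← h1, h5, h2] at h7
  have h8 : (FF p e m t M N χ Z L θ₀).ncard = Nat.card φ.range := Nat.eq_of_mul_eq_mul_left Nat.card_pos h7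
  have h9 : (FF p e m t M N χ Z L θ₀).ncard ≠ 0 := by
    rw [h8]
    exact Nat.card_pos.ne'
  exact ⟨Set.finite_of_ncard_ne_zero h9, h9, by rw [h8]; exact h3⟩

end Pool.Agent.NE
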