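import Pool.Agent.helper37.NE.SpecA

/-!
# MP_baa4d7_al, THEOREM NE, row YRI: induction from `N ⊓ cz Z` to `N' ⊓ cz Z`
-/

set_option autoImplicit false

namespace Pool.Agent.NE

open Pool.Agent.helper58.DC Pool.Agent.DI Pool.Agent.GR Pool.Agent.OB Pool.Agent.DR Pool.Agent.FI Pool.Agent.FI3 Pool.Agent.FI4 Pool.Agent.FI4I Pool.Agent.LE Pool.Agent.L5 Pool.Agent.NAB Pool.Agent.ND

section

variable {G : Type} [Group G] [Fintype G]

open Classical in
lemma YRI_fs (H : Subgroup G) (f : G → ℂ) :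
    ∑ᶠ x ∈ (H : Set G), f x = ∑ x : G, if x ∈ H then f x else 0 := by
  rw [finsum_eq_sum_of_fintype]
  exact Finset.sum_congr rfl fun x _ => finsum_eq_if

lemma YRI_mt (H : Subgroup G) (φ ψ : G → ℂ) (hψ : ∀ g, g ∉ H → ψ g = 0) :
    mt H φ ψ = (∑ x : G, φ x * ψ x⁻¹) / Nat.card H := by
  classical
  unfold FI.mt
  rw [YRI_fs]
  congr 1
  refine Finset.sum_congr rfl fun x _ => ?_
  split_ifs with h
  · rfl
  · rw [hψ x⁻¹ (fun h' => h (by simpa using H.inv_mem h')), mul_zero]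

open Classical in
lemma YRI_card (H : Subgroup G) : (Nat.card H : ℂ) = ∑ x : G, if x ∈ H then (1 : ℂ) else 0 := by
  rw [Finset.sum_boole, Nat.card_eq_fintype_card, Fintype.card_subtype]

/-- substitution `x = u y u⁻¹` -/
lemma YRI_conj (u : G) (f : G → ℂ) : ∑ x : G, f x = ∑ y : G, f (u * y * u⁻¹) :=
  (Equiv.sum_comp (MulAut.conj u).toEquiv f).symm

/-- substitution `x = y⁻¹` -/
lemma YRI_inv (f : G → ℂ) : ∑ x : G, f x = ∑ y : G, f y⁻¹ :=
  (Equiv.sum_comp (Equiv.inv G) f).symm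

/-- substitution `x = h y` -/
lemma YRI_mul (h : G) (f : G → ℂ) : ∑ x : G, f x = ∑ y : G, f (h * y) :=
  (Equiv.sum_comp (Equiv.mulLeft h) f).symm

open Classical in
/-- the induced function -/
noncomputable def YRI_I (C C' : Subgroup G) (θ : G → ℂ) (y : G) : ℂ :=
  (∑ u : G, if u ∈ C' then θ (u⁻¹ * y * u) else 0) / Nat.card C

lemma YRI_I_conj (C C' : Subgroup G) (θ : G → ℂ) (h : G) (hh : h ∈ C') (y : G) :
    YRI_I C C' θ (h * y * h⁻¹) = YRI_I C C' θ y := by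
  classical
  unfold YRI_I
  congr 1
  rw [YRI_mul h]
  refine Finset.sum_congr rfl fun u _ => ?_
  have e1 : h * u ∈ C' ↔ u ∈ C' := C'.mul_mem_cancel_left hh
  have e2 : (h * u)⁻¹ * (h * y * h⁻¹) * (h * u) = u⁻¹ * y * u := by group
  simp only [e1, e2]

lemma YRI_I_out (C C' : Subgroup G) (θ : G → ℂ) (hCC : C ≤ C') (hθ : ∀ g, g ∉ C → θ g = 0) (y : G) (hy : y ∉ C') :
    YRI_I C C' θ y = 0 := by
  classical
  unfold YRI_I
  rw [Finset.sum_eq_zero, zero_div]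
  intro u _
  split_ifs with hu
  · apply hθ
    intro h1
    apply hy
    have h2 := C'.mul_mem (C'.mul_mem hu (hCC h1)) (C'.inv_mem hu)
    have h3 : u * (u⁻¹ * y * u) * u⁻¹ = y := by group
    rwa [h3] at h2
  · rfl

lemma YRI_I_pair (C C' : Subgroup G) (θ θ' : G → ℂ) (hθ : ∀ g, g ∉ C → θ g = 0)
    (hθ' : ∀ g, ∀ h ∈ C', θ' (h * g * h⁻¹) = θ' g) :
    ∑ y : G, YRI_I C C' θ y * θ' y⁻¹ = Nat.card C' * mt C θ' θ := by
  classical
  rw [YRI_mt C θ' θ hθ, YRI_inv (fun x => θ' x * θ x⁻¹), YRI_card C']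
  unfold YRI_I
  have e1 : ∀ y : G, (∑ u : G, if u ∈ C' then θ (u⁻¹ * y * u) else 0) / (Nat.card C : ℂ) * θ' y⁻¹ =
      ∑ u : G, (if u ∈ C' then (1 : ℂ) else 0) * (θ (u⁻¹ * y * u) * θ' y⁻¹ / Nat.card C) := by
    intro y
    rw [div_mul_eq_mul_div, Finset.sum_mul, Finset.sum_div]
    refine Finset.sum_congr rfl fun u _ => ?_
    split_ifs <;> simp
  simp_rw [e1]
  rw [Finset.sum_comm, Finset.sum_mul]
  refine Finset.sum_congr rfl fun u _ => ?_
  rw [← Finset.mul_sum]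
  by_cases hu : u ∈ C'
  · rw [if_pos hu, ← Finset.sum_div, YRI_conj u]
    congr 2
    refine Finset.sum_congr rfl fun y _ => ?_
    have e2 : u⁻¹ * (u * y * u⁻¹) * u = y := by group
    have e3 : (u * y * u⁻¹)⁻¹ = u * y⁻¹ * u⁻¹ := by group
    rw [e2, e3, hθ' y⁻¹ u hu, inv_inv, mul_comm]
  · rw [if_neg hu, zero_mul, zero_mul]

end

/-- **Row YRI.** -/
theorem YRI (hYCL : YCL_stmt) (hYGW : YGW_stmt) (hZLM : ZLM_stmt) (hB2 : B2_stmt) (hEXP : EXP_stmt) : YRI_stmt := by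
  classical
  intro p e t hp G _ _ hT N Z w hW φ hφ θ hθ ν
  letI : Fintype G := Fintype.ofFinite G
  set C := N ⊓ cz Z with hC
  set C' := Nw N w ⊓ cz Z with hC'
  obtain ⟨⟨hN, -, -⟩, -, -, -, -, -, s, hs, hsn, hsC⟩ := hYGW p hp G N Z w hW
  have hCC : C ≤ C' := inf_le_inf_right _ hN
  have hθ0 : ∀ g, g ∉ C → θ g = 0 := hθ.1
  obtain ⟨hfin, hB⟩ := hB2 G C'
  have hmt : ∀ θ' ∈ IrrOn C', mt C θ' θ = 0 ∨ mt C θ' θ = 1 := by
    intro θ' hθ'
    have h1 := (hYCL G C s hsn).2.2.1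
    rw [← hsC] at h1
    exact h1 θ' hθ' θ hθ
  have hTf : ({θ' : G → ℂ | θ' ∈ IrrOn C' ∧ mt C θ' θ ≠ 0}).Finite := hfin.subset fun x hx => hx.1
  set TF := hTf.toFinset with hTF
  have memTF : ∀ θ', θ' ∈ TF ↔ θ' ∈ IrrOn C' ∧ mt C θ' θ ≠ 0 := by
    intro θ'
    rw [hTF, Set.Finite.mem_toFinset]
    exact Iff.rfl
  -- the induced character
  have key : ∀ x, YRI_I C C' θ x = ∑ θ' ∈ TF, θ' x := by
    have hz : (fun x : G => YRI_I C C' θ x⁻¹ - ∑ θ' ∈ TF, θ' x⁻¹) = 0 := by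
      apply hEXP G C'
      · constructor
        · intro h hh x
          have e1 : (h * x * h⁻¹)⁻¹ = h * x⁻¹ * h⁻¹ := by group
          show YRI_I C C' θ (h * x * h⁻¹)⁻¹ - ∑ θ' ∈ TF, θ' (h * x * h⁻¹)⁻¹ = YRI_I C C' θ x⁻¹ - ∑ θ' ∈ TF, θ' x⁻¹
          rw [e1, YRI_I_conj C C' θ h hh]
          congr 1
          refine Finset.sum_congr rfl fun θ' hθ' => ?_
          exact (hB θ' ((memTF θ').1 hθ').1).2.1 x⁻¹ h hh
        · intro x hx
          have hx' : x⁻¹ ∉ C' := fun h => hx (by simpa using C'.inv_mem h)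
          show YRI_I C C' θ x⁻¹ - ∑ θ' ∈ TF, θ' x⁻¹ = 0
          rw [YRI_I_out C C' θ hCC hθ0 _ hx', Finset.sum_eq_zero, sub_zero]
          intro θ' hθ'
          exact (hB θ' ((memTF θ').1 hθ').1).2.2.2.1 _ hx'
      · intro ψ hψ
        have hψB := hB ψ hψ
        have e1 : ∑ᶠ x : G, (YRI_I C C' θ x⁻¹ - ∑ θ' ∈ TF, θ' x⁻¹) * ψ x = 0 := by
          rw [finsum_eq_sum_of_fintype, YRI_inv]
          simp only [inv_inv, sub_mul, Finset.sum_sub_distrib]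
          rw [YRI_I_pair C C' θ ψ hθ0 hψB.2.1]
          have e2 : ∑ x : G, (∑ θ' ∈ TF, θ' x) * ψ x⁻¹ = ∑ θ' ∈ TF, if θ' = ψ then (Nat.card C' : ℂ) else 0 := by
            simp_rw [Finset.sum_mul]
            rw [Finset.sum_comm]
            refine Finset.sum_congr rfl fun θ' hθ' => ?_
            have e3 := (hB θ' ((memTF θ').1 hθ').1).2.2.2.2 ψ hψ
            rw [finsum_eq_sum_of_fintype] at e3
            rw [e3]
            split_ifs <;> rfl
          rw [e2, Finset.sum_ite_eq']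
          rcases hmt ψ hψ with h0 | h1
          · rw [h0, if_neg (fun h => ((memTF ψ).1 h).2 h0)]
            simp
          · rw [h1, if_pos ((memTF ψ).2 ⟨hψ, by rw [h1]; exact one_ne_zero⟩)]
            simp
        unfold cc
        rw [e1, zero_div]
    intro x
    have h1 := congrFun hz x⁻¹
    simp only [inv_inv, Pi.zero_apply] at h1
    exact sub_eq_zero.1 h1
  -- the two sides
  have hC'0 : (Nat.card C' : ℂ) ≠ 0 := by
    exact_mod_cast Nat.card_pos.ne'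
  have hst : ∀ (H : Subgroup G) (θ' : G → ℂ), (∀ g, g ∉ H → θ' g = 0) → ∀ g, g ∉ H → st Z t ν θ' g = 0 := by
    intro H θ' h g hg
    show lam Z t ν g * θ' g = 0
    rw [h g hg, mul_zero]
  have hlam := (hZLM p e t hp G hT Z ν).2.2.1
  rw [YRI_mt C φ (st Z t ν θ) (hst C θ hθ0), finsum_mem_eq_finite_toFinset_sum _ hTf]
  have e1 : ∑ θ' ∈ TF, mt C' φ (st Z t ν θ') = (∑ x : G, φ x * (lam Z t ν x⁻¹ * YRI_I C C' θ x⁻¹)) / Nat.card C' := by
    have e2 : ∀ θ' ∈ TF, mt C' φ (st Z t ν θ') = (∑ x : G, φ x * (lam Z t ν x⁻¹ * θ' x⁻¹)) / Nat.card C' := by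
      intro θ' hθ'
      rw [YRI_mt C' φ (st Z t ν θ') (hst C' θ' (hB θ' ((memTF θ').1 hθ').1).2.2.2.1)]
      rfl
    rw [Finset.sum_congr rfl e2, ← Finset.sum_div, Finset.sum_comm]
    congr 1
    refine Finset.sum_congr rfl fun x _ => ?_
    rw [key, Finset.mul_sum, Finset.mul_sum]
  rw [e1]
  have e3 : ∑ x : G, φ x * (lam Z t ν x⁻¹ * YRI_I C C' θ x⁻¹) =
      Nat.card C' * ((∑ x : G, φ x * st Z t ν θ x⁻¹) / Nat.card C) := by
    rw [YRI_card C', Finset.sum_mul]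
    have e4 : ∀ x : G, φ x * (lam Z t ν x⁻¹ * YRI_I C C' θ x⁻¹) =
        ∑ u : G, (if u ∈ C' then (1 : ℂ) else 0) * (φ x * (lam Z t ν x⁻¹ * θ (u⁻¹ * x⁻¹ * u)) / Nat.card C) := by
      intro x
      unfold YRI_I
      rw [mul_div_assoc', mul_div_assoc', Finset.mul_sum, Finset.mul_sum, Finset.sum_div]
      refine Finset.sum_congr rfl fun u _ => ?_
      split_ifs <;> simp
    simp_rw [e4]
    rw [Finset.sum_comm]
    refine Finset.sum_congr rfl fun u _ => ?_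
    rw [← Finset.mul_sum]
    by_cases hu : u ∈ C'
    · rw [if_pos hu, ← Finset.sum_div, YRI_conj u]
      congr 2
      refine Finset.sum_congr rfl fun y _ => ?_
      have e5 : (u * y * u⁻¹)⁻¹ = u * y⁻¹ * u⁻¹ := by group
      have e6 : u⁻¹ * (u * y⁻¹ * u⁻¹) * u = y⁻¹ := by group
      rw [e5, e6, hlam u hu.2]
      show φ (u * y * u⁻¹) * (lam Z t ν y⁻¹ * θ y⁻¹) = φ y * (lam Z t ν y⁻¹ * θ y⁻¹)
      by_cases hy : y ∈ C
      · rw [hφ u hu y (hCC hy)]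
      · rw [hθ0 y⁻¹ (fun h' => hy (by simpa using C.inv_mem h'))]
        simp
    · rw [if_neg hu, zero_mul, zero_mul]
  rw [e3, mul_div_cancel_left₀ _ hC'0]

end Pool.Agent.NE
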